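import Pool.Agent.N565.NG.Stm
import Pool.Agent.N108.SG.Enum

set_option autoImplicit false

/-!
# Standard negative classes with small intersection with the canonical class: the enumeration
(helper221)
-/

namespace Pool.Agent.N565.NG

namespace EnumX

open Pool.Agent.N108.SG (loop loop_sound ble_false sum_le sq_le)

/-- all numbers below `n` -/
def all (f : ℕ → Bool) : ℕ → Bool
  | 0 => true
  | n + 1 => f n && all f n

theorem all_sound {f : ℕ → Bool} : ∀ {n : ℕ}, all f n = true → ∀ i, i < n → f i = true := by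
  intro n
  induction n with
  | zero => intro _ i hi; omega
  | succ n ih =>
    intro h i hi
    rw [all, Bool.and_eq_true] at h
    rcases Nat.lt_succ_iff_lt_or_eq.1 hi with h1 | rfl
    · exact ih h.2 i h1
    · exact h.1

/-- The enumeration of the sorted lists with sum `S` and sum of squares at least `Q`. -/
def go (chk : List ℕ → Bool) : ℕ → ℕ → ℕ → ℕ → List ℕ → Bool
  | 0, S, Q, _, cur => bif Nat.ble 1 S || Nat.ble 1 Q then true else chk cur
  | cnt + 1, S, Q, last, cur =>
      loop (fun m => bif Nat.ble m S then go chk cnt (S - m) (Q - m * m) m (cur ++ [m]) else true)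
        (cnt + 1) S Q last

theorem go_sound {chk : List ℕ → Bool} : ∀ (cnt S Q last : ℕ) (cur : List ℕ),
    go chk cnt S Q last cur = true → ∀ v : ℕ → ℕ, Antitone v → v 0 ≤ last →
    ∑ k ∈ Finset.range cnt, v k = S → Q ≤ ∑ k ∈ Finset.range cnt, v k * v k →
    chk (cur ++ (List.range cnt).map v) = true := by
  intro cnt
  induction cnt with
  | zero =>
    intro S Q last cur h v _ _ h1 h2
    rw [Finset.range_zero, Finset.sum_empty] at h1 h2
    rw [go, ble_false (by omega), ble_false (by omega)] at h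
    simpa using h
  | succ cnt ih =>
    intro S Q last cur h v hv hl h1 h2
    rw [go] at h
    have h3 := loop_sound (m := v 0) (by rw [← h1]; exact sum_le hv _)
      (by rw [← h1]; exact h2.trans (sq_le hv _)) last h hl
    have h4 : v 0 ≤ S := by
      rw [← h1]
      exact Finset.single_le_sum (f := v) (fun k _ => Nat.zero_le _)
        (Finset.mem_range.2 (Nat.succ_pos cnt))
    rw [show Nat.ble (v 0) S = true from Nat.ble_eq_true_of_le h4, cond_true] at h3
    have h5 := ih _ _ _ _ h3 (fun k => v (k + 1))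
      (fun i j hij => hv (by omega)) (hv (by omega)) (by
        rw [Finset.sum_range_succ'] at h1
        omega) (by
        rw [Finset.sum_range_succ'] at h2
        omega)
    rw [List.append_assoc] at h5
    rw [List.range_succ_eq_map, List.map_cons, List.map_map]
    exact h5

/-- The full enumeration of the eight excesses. -/
def top (chk : List ℕ → Bool) (S Q x : ℕ) : Bool :=
  loop (fun m1 => bif Nat.ble m1 S then
    loop (fun m2 => bif Nat.ble m2 (S - m1) && Nat.ble (m1 + m2) x then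
      go chk 6 (S - m1 - m2) (Q - m1 * m1 - m2 * m2) (min m2 (x - m1 - m2)) [m1, m2]
      else true) 7 (S - m1) (Q - m1 * m1) m1
    else true) 8 S Q x

theorem top_sound {chk : List ℕ → Bool} {S Q x : ℕ} (h : top chk S Q x = true)
    {v : ℕ → ℕ} (hv : Antitone v) (h3 : v 0 + v 1 + v 2 ≤ x)
    (hS : ∑ k ∈ Finset.range 8, v k = S) (hQ : Q ≤ ∑ k ∈ Finset.range 8, v k * v k) :
    chk ((List.range 8).map v) = true := by
  unfold top at h
  have h1 := loop_sound (m := v 0) (by rw [← hS]; exact sum_le hv _)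
    (by rw [← hS]; exact hQ.trans (sq_le hv _)) x h (by omega)
  have h4 : v 0 ≤ S := by
    rw [← hS]
    exact Finset.single_le_sum (f := v) (fun k _ => Nat.zero_le _)
      (Finset.mem_range.2 (by norm_num))
  rw [show Nat.ble (v 0) S = true from Nat.ble_eq_true_of_le h4, cond_true] at h1
  obtain ⟨v', hv'⟩ : ∃ v' : ℕ → ℕ, v' = fun k => v (k + 1) := ⟨_, rfl⟩
  have hv'a : Antitone v' := by
    rw [hv']
    exact fun i j hij => hv (by omega)
  rw [Finset.sum_range_succ'] at hS hQ
  have hS' : ∑ k ∈ Finset.range 7, v' k = S - v 0 := by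
    rw [hv']
    simp only
    omega
  have hQ' : Q - v 0 * v 0 ≤ ∑ k ∈ Finset.range 7, v' k * v' k := by
    rw [hv']
    simp only
    omega
  have e1 : v' 0 = v 1 := by rw [hv']
  have h2 := loop_sound (m := v' 0) (by rw [← hS']; exact sum_le hv'a _)
    (by rw [← hS']; exact hQ'.trans (sq_le hv'a _)) (v 0) h1 (by
      rw [e1]
      exact hv (by omega))
  have h5 : v' 0 ≤ S - v 0 := by
    rw [← hS']
    exact Finset.single_le_sum (f := v') (fun k _ => Nat.zero_le _)
      (Finset.mem_range.2 (by norm_num))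
  rw [show Nat.ble (v' 0) (S - v 0) = true from Nat.ble_eq_true_of_le h5,
    show Nat.ble (v 0 + v' 0) x = true from Nat.ble_eq_true_of_le (by rw [e1]; omega), Bool.and_self,
    cond_true] at h2
  rw [Finset.sum_range_succ'] at hS' hQ'
  have h6 := go_sound _ _ _ _ _ h2 (fun k => v' (k + 1))
    (fun i j hij => hv'a (by omega)) (by
      rw [le_min_iff]
      refine ⟨hv'a (by omega), ?_⟩
      rw [hv']
      show v 2 ≤ x - v 0 - v 1
      omega) (by omega) (by omega)
  rw [hv'] at h6
  exact h6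

/-- The final test. -/
def chk (x m a b f : ℕ) (W : List ℕ) : Bool :=
  let L := W.map (fun y => m + y) ++ [m, a, b, f]
  let e := x + 3 * m
  let d := (L.foldr (fun y s => y * y + s) 0) - e * e
  decide (d < 2 ∨ (∃ y ∈ L, 1 ≤ y ∧ y < d) ∨
    (∃ p ∈ L, ∃ q ∈ L, 1 ≤ p ∧ 1 ≤ q ∧ q < p ∧ (p - q) * (p - q) < d) ∨ (e, L) ∈ cl)

/-- the possibilities for `m` and `x` -/
def row (c t a b : ℕ) : Bool :=
  bif Nat.ble (a + b) (c + t) && Nat.ble (c + t - a - b) b &&
      (Nat.ble b 0 || Nat.ble 4 b) && (Nat.ble (c + t - a - b) 0 || Nat.ble 4 (c + t - a - b)) then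
    all (fun m' => all (fun x => bif Nat.ble t (3 * x) then
      top (chk x (a + m') a b (c + t - a - b)) (3 * x - t)
        (x * x + 2 * (a + m') * t + 2 -
          (a * a + b * b + (c + t - a - b) * (c + t - a - b))) x else true) (3 * t + 1))
      ((a * a + b * b + (c + t - a - b) * (c + t - a - b)) / (2 * t) + 1 - a)
  else true

/-- everything -/
def big : Bool :=
  all (fun c' => all (fun t' => all (fun a' => all (fun b => row (c' + 6) (t' + 1) (a' + 4) b)
    (a' + 5)) 10) (c' + 5)) 2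

set_option maxRecDepth 100000 in
theorem big_true : big = true := by decide +kernel

theorem big_use {c t a b m x : ℕ} (hc : c = 6 ∨ c = 7) (ht : 1 ≤ t) (htc : t < c) (ha : 4 ≤ a)
    (hb : b ≤ a) (hs : a + b ≤ c + t) (hf : c + t - a - b ≤ b) (hb4 : b = 0 ∨ 4 ≤ b)
    (hf4 : c + t - a - b = 0 ∨ 4 ≤ c + t - a - b) (ham : a ≤ m)
    (hm : 2 * t * m ≤ a * a + b * b + (c + t - a - b) * (c + t - a - b)) (hx : x ≤ 3 * t)
    (htx : t ≤ 3 * x) :
    top (chk x m a b (c + t - a - b)) (3 * x - t) (x * x + 2 * m * t + 2 -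
      (a * a + b * b + (c + t - a - b) * (c + t - a - b))) x = true := by
  have h := big_true
  unfold big at h
  have h1 := all_sound (all_sound (all_sound (all_sound h (c - 6) (by omega)) (t - 1) (by omega))
    (a - 4) (by omega)) b (by omega)
  rw [show c - 6 + 6 = c by omega, show t - 1 + 1 = t by omega,
    show a - 4 + 4 = a by omega] at h1
  unfold row at h1
  have g1 : Nat.ble (a + b) (c + t) = true := Nat.ble_eq_true_of_le hs
  have g2 : Nat.ble (c + t - a - b) b = true := Nat.ble_eq_true_of_le hf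
  have g3 : (Nat.ble b 0 || Nat.ble 4 b) = true := by
    rw [Bool.or_eq_true]
    rcases hb4 with h2 | h2
    · exact Or.inl (Nat.ble_eq_true_of_le h2.le)
    · exact Or.inr (Nat.ble_eq_true_of_le h2)
  have g4 : (Nat.ble (c + t - a - b) 0 || Nat.ble 4 (c + t - a - b)) = true := by
    rw [Bool.or_eq_true]
    rcases hf4 with h2 | h2
    · exact Or.inl (Nat.ble_eq_true_of_le h2.le)
    · exact Or.inr (Nat.ble_eq_true_of_le h2)
  rw [g1, g2, g3, g4] at h1
  simp only [Bool.and_self, cond_true] at h1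
  have h2 : m ≤ (a * a + b * b + (c + t - a - b) * (c + t - a - b)) / (2 * t) := by
    rw [Nat.le_div_iff_mul_le (by omega)]
    rw [mul_comm]
    exact hm
  have h3 := all_sound (all_sound h1 (m - a) (by omega)) x (by omega)
  rw [show a + (m - a) = m by omega,
    show Nat.ble t (3 * x) = true from Nat.ble_eq_true_of_le htx, cond_true] at h3
  exact h3

theorem sum_ext {f : ℕ → ℕ} {n n' : ℕ} (h : ∀ k, n ≤ k → f k = 0) (h' : ∀ k, n' ≤ k → f k = 0) :
    ∑ k ∈ Finset.range n, f k = ∑ k ∈ Finset.range n', f k := by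
  have e : ∀ {m M : ℕ}, m ≤ M → (∀ k, m ≤ k → f k = 0) →
      ∑ k ∈ Finset.range m, f k = ∑ k ∈ Finset.range M, f k := by
    intro m M hmM hf
    refine Finset.sum_subset (Finset.range_subset_range.2 hmM) fun k _ hk => hf k ?_
    simpa using hk
  rw [e (le_max_left n n') h, e (le_max_right n n') h']

/-- the inequality between the squares -/
theorem sq_ineq {w : ℕ → ℕ} (hw : Antitone w) {x : ℕ} (hx : w 0 + w 1 + w 2 ≤ x) :
    ∑ k ∈ Finset.range 8, w k * w k ≤ x * x := by
  have h01 := hw (show 0 ≤ 1 by omega)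
  have h12 := hw (show 1 ≤ 2 by omega)
  have h23 := hw (show 2 ≤ 3 by omega)
  have h24 := hw (show 2 ≤ 4 by omega)
  have h25 := hw (show 2 ≤ 5 by omega)
  have h26 := hw (show 2 ≤ 6 by omega)
  have h27 := hw (show 2 ≤ 7 by omega)
  have e : ∑ k ∈ Finset.range 8, w k * w k = w 0 * w 0 + w 1 * w 1 + w 2 * w 2 + w 3 * w 3 +
      w 4 * w 4 + w 5 * w 5 + w 6 * w 6 + w 7 * w 7 := by
    simp [Finset.sum_range_succ]
  rw [e]
  have h1 : (w 0 + w 1 + w 2) * (w 0 + w 1 + w 2) ≤ x * x := Nat.mul_le_mul hx hx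
  have m3 := Nat.mul_le_mul h23 h23
  have m4 := Nat.mul_le_mul h24 h24
  have m5 := Nat.mul_le_mul h25 h25
  have m6 := Nat.mul_le_mul h26 h26
  have m7 := Nat.mul_le_mul h27 h27
  have n1 : w 2 * w 2 ≤ w 0 * w 1 := Nat.mul_le_mul (h12.trans h01) h12
  have n2 : w 2 * w 2 ≤ w 0 * w 2 := Nat.mul_le_mul (h12.trans h01) le_rfl
  have n3 : w 2 * w 2 ≤ w 1 * w 2 := Nat.mul_le_mul h12 le_rfl
  have e2 : (w 0 + w 1 + w 2) * (w 0 + w 1 + w 2) = w 0 * w 0 + w 1 * w 1 + w 2 * w 2 +
      2 * (w 0 * w 1) + 2 * (w 0 * w 2) + 2 * (w 1 * w 2) := by ring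
  omega

end EnumX

open EnumX in
theorem t_ENUM : S_ENUM := by
  intro c e δ n v hc hv h3 h4 h9 hn hS hQ hδ hδv hpair
  have hn2 : ∀ k, n ≤ k → v k ^ 2 = 0 := fun k hk => by rw [hn k hk]; rfl
  -- the excesses
  obtain ⟨m, hm⟩ : ∃ m, m = v 8 := ⟨_, rfl⟩
  obtain ⟨w, hw⟩ : ∃ w : ℕ → ℕ, w = fun k => v k - m := ⟨_, rfl⟩
  have hwa : Antitone w := by
    rw [hw]
    exact fun i j hij => Nat.sub_le_sub_right (hv hij) _
  have hvw : ∀ k, k ≤ 8 → v k = m + w k := by
    intro k hk
    have h1 := hv hk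
    rw [hw]
    simp only
    omega
  have h89 : v 9 ≤ m := by rw [hm]; exact hv (by omega)
  obtain ⟨x, hx⟩ : ∃ x, e = x + 3 * m := by
    refine ⟨e - 3 * m, ?_⟩
    have a0 := hvw 0 (by omega)
    have a1 := hvw 1 (by omega)
    have a2 := hvw 2 (by omega)
    omega
  have hv0 := hvw 0 (by omega)
  have hv1 := hvw 1 (by omega)
  have hv2 := hvw 2 (by omega)
  have hv3 := hvw 3 (by omega)
  have hv4 := hvw 4 (by omega)
  have hv5 := hvw 5 (by omega)
  have hv6 := hvw 6 (by omega)
  have hv7 := hvw 7 (by omega)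
  have hv8 := hvw 8 (by omega)
  have hw3 : w 0 + w 1 + w 2 ≤ x := by omega
  have w01 := hwa (show 0 ≤ 1 by omega)
  have w12 := hwa (show 1 ≤ 2 by omega)
  have w23 := hwa (show 2 ≤ 3 by omega)
  have w34 := hwa (show 3 ≤ 4 by omega)
  have w45 := hwa (show 4 ≤ 5 by omega)
  have w56 := hwa (show 5 ≤ 6 by omega)
  have w67 := hwa (show 6 ≤ 7 by omega)
  have hsw : ∑ k ∈ Finset.range 8, w k = w 0 + w 1 + w 2 + w 3 + w 4 + w 5 + w 6 + w 7 := by
    simp [Finset.sum_range_succ]
  obtain ⟨t, ht⟩ : ∃ t, 3 * x = ∑ k ∈ Finset.range 8, w k + t := ⟨3 * x -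
    ∑ k ∈ Finset.range 8, w k, by omega⟩
  have hxt : x ≤ 3 * t := by omega
  have hsq := sq_ineq hwa hw3
  -- the tails
  obtain ⟨TT, hTT⟩ : ∃ TT, TT = ∑ k ∈ Finset.range (n + 4), v (9 + k) := ⟨_, rfl⟩
  obtain ⟨T2, hT2⟩ : ∃ T2, T2 = ∑ k ∈ Finset.range (n + 4), v (9 + k) ^ 2 := ⟨_, rfl⟩
  have s1 : ∑ k ∈ Finset.range 9, v k + TT = 3 * e + c := by
    rw [← hS, sum_ext hn (n' := 9 + (n + 4)) fun k hk => hn k (by omega), hTT,
      Finset.sum_range_add v 9 (n + 4)]
  have s2 : ∑ k ∈ Finset.range 9, v k ^ 2 + T2 = e ^ 2 + δ := by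
    rw [← hQ, sum_ext hn2 (n' := 9 + (n + 4)) fun k hk => hn2 k (by omega), hT2,
      Finset.sum_range_add (fun k => v k ^ 2)]
  have e1 : ∑ k ∈ Finset.range 9, v k = ∑ k ∈ Finset.range 8, w k + 9 * m := by
    rw [hsw]
    simp only [Finset.sum_range_succ, Finset.sum_range_zero]
    omega
  have hTTe : TT = c + t := by omega
  have e2 : ∑ k ∈ Finset.range 9, v k ^ 2 = ∑ k ∈ Finset.range 8, w k * w k +
      2 * m * ∑ k ∈ Finset.range 8, w k + 9 * m ^ 2 := by
    have hw8 : w 8 = 0 := by omega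
    simp only [Finset.sum_range_succ, Finset.sum_range_zero]
    rw [hv0, hv1, hv2, hv3, hv4, hv5, hv6, hv7, hv8, hw8]
    ring
  have key : ∑ k ∈ Finset.range 8, w k * w k + T2 = x * x + 2 * m * t + δ := by
    have h1 : 2 * m * (3 * x) = 2 * m * ∑ k ∈ Finset.range 8, w k + 2 * m * t := by
      rw [ht]
      ring
    have h2 : e ^ 2 = x * x + 2 * m * (3 * x) + 9 * m ^ 2 := by
      rw [hx]
      ring
    rw [h2, h1, e2] at s2
    omega
  have hT2le : T2 ≤ v 9 * TT := by
    rw [hT2, hTT, Finset.mul_sum]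
    refine Finset.sum_le_sum fun k _ => ?_
    rw [sq]
    exact Nat.mul_le_mul_right _ (hv (by omega))
  -- `t < c`
  have htc : t < c := by
    by_contra hcon
    push Not at hcon
    have h1 : v 9 * TT ≤ m * (c + t) := by rw [hTTe]; exact Nat.mul_le_mul_right _ h89
    have h2 : m * (c + t) ≤ m * (2 * t) := Nat.mul_le_mul_left _ (by omega)
    have h5 : m * (2 * t) = 2 * m * t := by ring
    omega
  -- the thirteenth multiplicity is zero
  have h12 : v 12 = 0 := by
    by_contra h0
    have h5 : 4 ≤ v 12 := (h4 12).resolve_left h0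
    have h6 : v 12 ≤ v 11 := hv (by omega)
    have h7 : v 11 ≤ v 10 := hv (by omega)
    have h8 : v 10 ≤ v 9 := hv (by omega)
    have h10 : ∑ k ∈ Finset.range 4, v (9 + k) ≤ TT := by
      rw [hTT]
      exact Finset.sum_le_sum_of_subset (Finset.range_subset_range.2 (by omega))
    simp only [Finset.sum_range_succ, Finset.sum_range_zero] at h10
    norm_num at h10
    omega
  have hz : ∀ k, 12 ≤ k → v k = 0 := fun k hk => by
    have := hv hk
    omega
  refine ⟨?_, hz⟩
  have hTT3 : TT = v 9 + v 10 + v 11 := by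
    rw [hTT, sum_ext (f := fun k => v (9 + k)) (n' := 3) (fun k hk => hn _ (by omega))
      fun k hk => hz _ (by omega)]
    simp [Finset.sum_range_succ]
  have hT23 : T2 = v 9 * v 9 + v 10 * v 10 + v 11 * v 11 := by
    rw [hT2, sum_ext (f := fun k => v (9 + k) ^ 2) (n' := 3)
      (fun k hk => by rw [hn _ (by omega)]; rfl) fun k hk => by rw [hz _ (by omega)]; rfl]
    simp [Finset.sum_range_succ, sq]
  have v910 : v 10 ≤ v 9 := hv (by omega)
  have v1011 : v 11 ≤ v 10 := hv (by omega)
  have hδ9 : δ ≤ v 9 := hδv 9 (by omega)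
  -- `1 ≤ t`
  have ht1 : 1 ≤ t := by
    by_contra hcon
    have ht0 : t = 0 := by omega
    have h5 : 4 * v 9 ≤ v 9 * v 9 := Nat.mul_le_mul_right _ h9
    have h6 : 2 * m * t = 0 := by rw [ht0]; ring
    have h7 : x * x = 0 := by
      have : x = 0 := by omega
      rw [this]
    omega
  have hf : c + t - v 9 - v 10 = v 11 := by omega
  have hbig := big_use (c := c) (t := t) (a := v 9) (b := v 10) (m := m) (x := x) hc ht1 htc h9
    v910 (by omega) (by omega) (h4 10) (by rw [hf]; exact h4 11) h89 (by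
      rw [hf, ← hT23]
      have : 2 * t * m = 2 * m * t := by ring
      omega) hxt (by omega)
  rw [hf, ← hT23] at hbig
  have hchk := top_sound hbig hwa hw3 (by omega) (by omega)
  unfold chk at hchk
  have hL : (List.map (fun y => m + y) (List.map w (List.range 8)) ++ [m, v 9, v 10, v 11]) =
      (List.range 12).map v := by
    simp only [List.range_succ, List.range_zero, List.nil_append, List.map_cons,
      List.map_nil, List.cons_append]
    rw [hv0, hv1, hv2, hv3, hv4, hv5, hv6, hv7]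
    rw [← hm]
  rw [hL] at hchk
  have hS2 : ((List.range 12).map v).foldr (fun y s => y * y + s) 0 = e ^ 2 + δ := by
    rw [← s2, hT23]
    simp only [List.range_succ, List.range_zero, List.nil_append, List.map_cons,
      List.map_nil, List.cons_append, List.foldr_cons, List.foldr_nil, Finset.sum_range_succ,
      Finset.sum_range_zero]
    ring
  simp only [hS2] at hchk
  rw [← hx, show e ^ 2 + δ - e * e = δ by rw [sq, Nat.add_sub_cancel_left]] at hchk
  rcases of_decide_eq_true hchk with h | ⟨y, hy, h1, h5⟩ | ⟨p, hp, q, hq, h1, h5, h6, h7⟩ | h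
  · omega
  · obtain ⟨i, _, rfl⟩ := List.mem_map.1 hy
    have := hδv i (by omega)
    omega
  · obtain ⟨i, _, rfl⟩ := List.mem_map.1 hp
    obtain ⟨j, _, rfl⟩ := List.mem_map.1 hq
    have h8 := hpair i j (by omega) (by omega) (by omega)
    obtain ⟨u, hu⟩ : ∃ u, v i = v j + u := ⟨v i - v j, by omega⟩
    rw [hu] at h7 h8
    rw [Nat.add_sub_cancel_left] at h7
    push_cast at h8
    have h10 : ((v j : ℤ) + u - v j) ^ 2 = u * u := by ring
    rw [h10] at h8
    have h11 : δ ≤ u * u := by exact_mod_cast h8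
    omega
  · exact h

end Pool.Agent.N565.NG
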