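import Pool.Agent.N565.NG.Std
import Pool.Agent.TH167.TT.Irr2

set_option autoImplicit false

/-!
# Negative curves on the blow-up of the plane at generic points
-/

namespace Pool.Agent.N565.NG

open MvPolynomial Pool.Agent.W609 Pool.Agent.W609.CR Pool.Agent.TH167 Pool.Agent.TH167.SH
  Pool.Agent.TH167.TT

theorem neg_seven (hE : S_ENUM) {r e : ℕ} {w : Fin (r + 4) → ℕ} {P : Fin (r + 4) → Fin 2 → ℂ}
    (hP : AlgebraicIndependent ℚ (fun ij : Fin (r + 4) × Fin 2 => P ij.1 ij.2))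
    {G : MvPolynomial (Fin 3) ℂ} (hG : Irreducible G) (hGe : G.IsHomogeneous e)
    (hord : ∀ j, Ord (aff (P j)) (w j) G) (hneg : ip e w e w < 0)
    (hne : ¬ (ip e w e w = -1 ∧ kk e w = 1)) :
    7 ≤ -kk e w ∧ (ip e w e w ≤ -2 → 8 ≤ -kk e w) ∧
      (-3 ≤ ip e w e w → 6 ≤ ip e w e w - kk e w) := by
  rcases irr_red e P hP w G hG hGe hord with ⟨-, a2, a3⟩ |
    ⟨P1, e1, w1, G1, b1, b2, b3, b4, b5, b6, -, -, -⟩
  · exact absurd ⟨a2, a3⟩ hne
  · obtain ⟨q1, q2, q3⟩ := quad_inv b5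
    simp only at q1 q2 q3
    rw [← q3] at hneg
    have h := std_no hE b1 b2 b3 b4 b6 hneg
    rw [q2, q3] at h
    rw [q3] at hneg
    have h2χ := two_chi e w
    refine ⟨h.1, h.2, fun h3 => ?_⟩
    have h4 := h.1
    have h5 := h.2
    omega

end Pool.Agent.N565.NG
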