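import Pool.Agent.N108.SG.Dom

set_option autoImplicit false

/-!
# Certificates of emptiness
-/

namespace Pool.Agent.N565.NG

open Pool.Agent.N108.SG

theorem e24 : Emp 24 [8, 8, 8, 8, 8, 8, 8, 8, 6, 4, 4] := emp_of_cK (m0 := 8)
  (ms := [8, 8, 8, 8, 8, 8, 8, 6, 4, 4])
  (qs := [(6, 4), (6, 3), (5, 5), (3, 4), (4, 3), (0, 5), (0, 4), (4, 5), (6, 0), (2, 3)])
  (by norm_num) (by decide +kernel)

theorem e21 : Emp 21 [7, 7, 7, 7, 7, 7, 7, 5, 5, 5, 5] := emp_of_cK (m0 := 7)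
  (ms := [7, 7, 7, 7, 7, 7, 5, 5, 5, 5])
  (qs := [(6, 1), (0, 3), (3, 1), (5, 5), (1, 4), (2, 0), (0, 5), (2, 1), (6, 5), (6, 6)])
  (by norm_num) (by decide +kernel)

theorem e20 : Emp 20 [8, 6, 6, 6, 6, 6, 6, 6, 6, 6, 4] := emp_of_cK (m0 := 8)
  (ms := [6, 6, 6, 6, 6, 6, 6, 6, 6, 4])
  (qs := [(6, 1), (0, 3), (3, 1), (5, 5), (1, 4), (2, 0), (0, 5), (2, 1), (6, 5), (6, 6)])
  (by norm_num) (by decide +kernel)

theorem e25 : Emp 25 [8, 8, 8, 8, 8, 8, 8, 8, 8, 6, 4] := emp_of_cK (m0 := 8)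
  (ms := [8, 8, 8, 8, 8, 8, 8, 8, 6, 4])
  (qs := [(6, 1), (2, 5), (0, 1), (1, 5), (0, 6), (4, 1), (4, 6), (6, 0), (3, 5), (6, 6)])
  (by norm_num) (by decide +kernel)

end Pool.Agent.N565.NG
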