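import Pool.Agent.N108.SG.Dom

set_option autoImplicit false

/-!
# Certificates of emptiness
-/

namespace Pool.Agent.N565.NG

open Pool.Agent.N108.SG

theorem e49 : Emp 49 [16, 16, 16, 16, 16, 16, 16, 16, 16, 10] := emp_of_cK (m0 := 16)
  (ms := [16, 16, 16, 16, 16, 16, 16, 16, 10])
  (qs := [(2, 6), (2, 2), (2, 5), (3, 4), (1, 3), (1, 1), (3, 0), (3, 5), (1, 5)])
  (by norm_num) (by decide +kernel)

end Pool.Agent.N565.NG
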