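import Pool.Agent.TH167.CL.NegG
import Pool.Agent.H977R3.CM.Aut

set_option autoImplicit false

/-!
# The multiplicities of a negative curve

The second part is taken from `Pool.Agent.Y939.XN.Perm` (with fewer imports).
-/

namespace Pool.Agent.N565.NG

open MvPolynomial Pool.Agent.W609 Pool.Agent.W609.CR Pool.Agent.TH167 Pool.Agent.TH167.SH
  Pool.Agent.TH167.TT Pool.Agent.TH167.DD Pool.Agent.TH167.T3 Pool.Agent.TH167.CL

/-- The theorem of Xu. -/
theorem xu_neg {K : Type} [Field K] [CharZero K] [IsAlgClosed K] {r e : ℕ} (he : 2 ≤ e)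
    {w : Fin (r + 4) → ℕ} {P : Fin (r + 4) → Fin 2 → K}
    (hP : AlgebraicIndependent ℚ (fun ij : Fin (r + 4) × Fin 2 => P ij.1 ij.2))
    {G : MvPolynomial (Fin 3) K} (hG : Irreducible G) (hGe : G.IsHomogeneous e)
    (hord : ∀ j, Ord (aff (P j)) (w j) G) (hneg : ip e w e w < 0) {j : Fin (r + 4)}
    (hj : 3 ≤ w j) : ∑ i, w i * w i ≤ e * e + w j := by
  classical
  have h1 := neg_grow he hP hG hGe hord hneg hj ∅ (fun i hi => absurd hi (Finset.notMem_empty i))
  rw [Finset.card_empty] at h1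
  obtain ⟨V, hV⟩ : ∃ V, V = VS (fun j => aff (P j)) (dr (insert j ∅) w) e := ⟨_, rfl⟩
  rw [← hV] at h1
  have hex : ∃ f ∈ V, f ∉ Submodule.span K {G} := by
    by_contra hcon
    push Not at hcon
    have h2 : V ≤ Submodule.span K {G} := hcon
    have h3 := Submodule.finrank_mono h2
    have h4 := finrank_span_singleton (K := K) hG.ne_zero
    omega
  obtain ⟨f, hfV, hf⟩ := hex
  rw [hV] at hfV
  have hf' := (mem_VS _ _ _ _).1 hfV
  have hf0 : f ≠ 0 := fun h => hf (by rw [h]; exact Submodule.zero_mem _)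
  have hnd : ¬ G ∣ f := by
    intro hd
    have h1 := mem_mult (m := 0) hGe hG.ne_zero hf'.1 hd fun _ => by omega
    obtain ⟨c, hc, hcf⟩ := h1
    have hc' : c.IsHomogeneous 0 := hc
    obtain ⟨a, ha⟩ : ∃ a, c = C a := ⟨_, (totalDegree_eq_zero_iff_eq_C.1 (by
      have := hc'.totalDegree_le
      omega))⟩
    have hcf' : G * c = f := hcf
    apply hf
    rw [Submodule.mem_span_singleton]
    exact ⟨a, by rw [← hcf', ha, mul_comm, MvPolynomial.C_mul']⟩
  have hb := bez (inj_of_alg hP) hG hGe (fun l => (hord l).1) hf0 hf'.1 hf'.2 hnd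
  have h3 := sum_dr (insert j ∅) w
  rw [Finset.sum_insert (Finset.notMem_empty j), Finset.sum_empty] at h3
  omega

/-- A permutation of algebraically independent numbers is induced by an automorphism. -/
theorem exists_aut_perm {ι : Type} {x : ι → ℂ} (hx : AlgebraicIndependent ℚ x)
    (σ : Equiv.Perm ι) : ∃ τ : ℂ ≃+* ℂ, ∀ i, τ (x i) = x (σ i) := by
  have hinj : Function.Injective (aeval x : MvPolynomial ι ℚ →ₐ[ℚ] ℂ) := hx
  obtain ⟨j, hj⟩ : ∃ j : FractionRing (MvPolynomial ι ℚ) →+* ℂ,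
      j = IsFractionRing.lift (A := MvPolynomial ι ℚ) (g := (aeval x : MvPolynomial ι ℚ →ₐ[ℚ] ℂ).toRingHom)
        hinj := ⟨_, rfl⟩
  obtain ⟨g, hg⟩ : ∃ g : FractionRing (MvPolynomial ι ℚ) ≃+* FractionRing (MvPolynomial ι ℚ),
      g = IsFractionRing.ringEquivOfRingEquiv (renameEquiv ℚ σ).toRingEquiv := ⟨_, rfl⟩
  obtain ⟨τ, hτ⟩ := Pool.Agent.H977R3.CM.exists_aut j g
  refine ⟨τ, fun i => ?_⟩
  have h1 : ∀ f : MvPolynomial ι ℚ, j (algebraMap _ _ f) = aeval x f := fun f => by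
    rw [hj, IsFractionRing.lift_algebraMap]
    rfl
  have h2 := hτ (algebraMap (MvPolynomial ι ℚ) _ (X i))
  rw [h1, aeval_X, hg, IsFractionRing.ringEquivOfRingEquiv_algebraMap] at h2
  rw [h2]
  have h3 : (renameEquiv ℚ σ).toRingEquiv (X i) = (X (σ i) : MvPolynomial ι ℚ) := by
    simp
  rw [h3, h1, aeval_X]

/-- Orders of vanishing and automorphisms of the field. -/
theorem van_map (τ : ℂ ≃+* ℂ) (v : Fin 3 → ℂ) (m : ℕ) (f : MvPolynomial (Fin 3) ℂ) :
    Van (fun i => τ (v i)) m (mapEquiv (Fin 3) τ f) ↔ Van v m f := by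
  unfold Van
  obtain ⟨φ, hφ⟩ : ∃ φ, φ = mapEquiv (Fin 3) τ := ⟨_, rfl⟩
  rw [← hφ]
  have h1 : RingHom.ker (eval fun i => τ (v i)) =
      Ideal.map (φ : MvPolynomial (Fin 3) ℂ →+* MvPolynomial (Fin 3) ℂ)
        (RingHom.ker (eval v)) := by
    rw [Ideal.map_comap_of_equiv]
    ext g
    rw [Ideal.mem_comap, RingHom.mem_ker, RingHom.mem_ker]
    obtain ⟨h, rfl⟩ := φ.surjective g
    have h2 : eval (fun i => τ (v i)) (φ h) = τ (eval v h) := by
      rw [hφ]
      have e1 : (mapEquiv (Fin 3) τ) h = map (τ : ℂ →+* ℂ) h := rfl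
      have e3 := eval₂_comp_left (τ : ℂ →+* ℂ) (RingHom.id ℂ) v h
      rw [eval₂_id, RingHom.comp_id] at e3
      rw [e1, eval_map]
      exact e3.symm
    rw [h2]
    simp
  rw [h1, ← Ideal.map_pow]
  constructor
  · intro h
    obtain ⟨g, hg, hgf⟩ := (Ideal.mem_map_of_equiv φ _).1 h
    rwa [← φ.injective hgf]
  · exact fun h => Ideal.mem_map_of_mem _ h

/-- The conjugate of an irreducible curve. -/
theorem exists_conj {s : ℕ} {P : Fin s → Fin 2 → ℂ}
    (hP : AlgebraicIndependent ℚ (fun ij : Fin s × Fin 2 => P ij.1 ij.2))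
    {G : MvPolynomial (Fin 3) ℂ} {e : ℕ} {u : Fin s → ℕ} (hG : Irreducible G)
    (hGe : G.IsHomogeneous e) (hGo : ∀ j, Ord (aff (P j)) (u j) G) (σ : Equiv.Perm (Fin s)) :
    ∃ G' : MvPolynomial (Fin 3) ℂ, Irreducible G' ∧ G'.IsHomogeneous e ∧
      ∀ j, Ord (aff (P j)) (u (σ j)) G' := by
  obtain ⟨τ, hτ⟩ := exists_aut_perm hP (Equiv.prodCongr σ.symm (Equiv.refl (Fin 2)))
  refine ⟨mapEquiv (Fin 3) τ G, (MulEquiv.irreducible_iff (mapEquiv (Fin 3) τ)).2 hG, ?_,
    fun j => ?_⟩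
  · have e1 : (mapEquiv (Fin 3) τ) G = map (τ : ℂ →+* ℂ) G := rfl
    rw [e1]
    exact hGe.map _
  · have h1 : (fun i => τ (aff (P (σ j)) i)) = aff (P j) := by
      have h2 : ∀ b, τ (P (σ j) b) = P j b := fun b => by
        have h3 := hτ (σ j, b)
        simp only [Equiv.prodCongr_apply, Prod.map_apply, Equiv.symm_apply_apply,
          Equiv.refl_apply] at h3
        exact h3
      funext i
      fin_cases i
      · exact h2 0
      · exact h2 1
      · exact map_one τ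
    unfold CR.Ord
    rw [← h1, van_map, van_map]
    exact hGo (σ j)

/-- Different multiplicities of a negative curve are far from each other. -/
theorem spaced {s : ℕ} {P : Fin s → Fin 2 → ℂ}
    (hP : AlgebraicIndependent ℚ (fun ij : Fin s × Fin 2 => P ij.1 ij.2))
    {G : MvPolynomial (Fin 3) ℂ} {e : ℕ} {u : Fin s → ℕ} (hG : Irreducible G)
    (hGe : G.IsHomogeneous e) (hGo : ∀ j, Ord (aff (P j)) (u j) G) {i j : Fin s}
    (hij : u i ≠ u j) : ((∑ l, u l ^ 2 : ℕ) : ℤ) - (e : ℤ) ^ 2 ≤ ((u i : ℤ) - u j) ^ 2 := by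
  classical
  obtain ⟨G', hG', hGe', hGo'⟩ := exists_conj hP hG hGe hGo (Equiv.swap i j)
  have hne : i ≠ j := fun h => hij (by rw [h])
  have hnd : ¬ G ∣ G' := by
    rintro ⟨Q, rfl⟩
    rcases lt_or_gt_of_ne hij with h | h
    · refine (hGo' j).2 (van_mono (b := u j) ?_ ?_)
      · rw [Equiv.swap_apply_right]
        omega
      · exact Ideal.mul_mem_right _ _ (hGo j).1
    · refine (hGo' i).2 (van_mono (b := u i) ?_ ?_)
      · rw [Equiv.swap_apply_left]
        omega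
      · exact Ideal.mul_mem_right _ _ (hGo i).1
  have hb := bez (inj_of_alg hP) hG hGe (fun j => (hGo j).1) hG'.ne_zero hGe'
    (fun j => (hGo' j).1) hnd
  have hb' : ∑ l, (u l : ℤ) * u (Equiv.swap i j l) ≤ (e : ℤ) * e := by exact_mod_cast hb
  have h1 : ∑ l, ((u l : ℤ) - u (Equiv.swap i j l)) ^ 2 = 2 * ((u i : ℤ) - u j) ^ 2 := by
    rw [Fintype.sum_eq_add i j hne]
    · rw [Equiv.swap_apply_left, Equiv.swap_apply_right]
      ring
    · rintro l ⟨h2, h3⟩
      rw [Equiv.swap_apply_of_ne_of_ne h2 h3]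
      ring
  have h2 : ∑ l, ((u l : ℤ) - u (Equiv.swap i j l)) ^ 2 =
      ∑ l, (u l : ℤ) ^ 2 + ∑ l, (u (Equiv.swap i j l) : ℤ) ^ 2 -
        2 * ∑ l, (u l : ℤ) * u (Equiv.swap i j l) := by
    rw [Finset.mul_sum, ← Finset.sum_add_distrib, ← Finset.sum_sub_distrib]
    exact Finset.sum_congr rfl fun l _ => by ring
  have h3 : ∑ l, (u (Equiv.swap i j l) : ℤ) ^ 2 = ∑ l, (u l : ℤ) ^ 2 :=
    Equiv.sum_comp (Equiv.swap i j) fun l => (u l : ℤ) ^ 2
  rw [h3, h1] at h2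
  push_cast
  have e1 : (e : ℤ) ^ 2 = e * e := sq _
  linarith

end Pool.Agent.N565.NG
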