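import Pool.Agent.N565.NG.Tab
import Pool.Agent.N565.NG.Sep
import Pool.Agent.N108.SG.Main
import Pool.Agent.TH167.CL.Neg

set_option autoImplicit false

/-!
# Negative curves of standard class
-/

namespace Pool.Agent.N565.NG

open MvPolynomial Pool.Agent.W609 Pool.Agent.W609.CR Pool.Agent.TH167 Pool.Agent.TH167.SH
  Pool.Agent.TH167.TT Pool.Agent.TH167.DD Pool.Agent.TH167.T3 Pool.Agent.TH167.CL
open Pool.Agent.N108.SG

/-- The part with `C ^ 2 ≤ -2`, `K C = 6` or `7`. -/
theorem std_case (hE : S_ENUM) {r e : ℕ} {w : Fin (r + 4) → ℕ} {P : Fin (r + 4) → Fin 2 → ℂ}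
    (hP : AlgebraicIndependent ℚ (fun ij : Fin (r + 4) × Fin 2 => P ij.1 ij.2))
    {G : MvPolynomial (Fin 3) ℂ} (hG : Irreducible G) (hGe : G.IsHomogeneous e)
    (hord : ∀ j, Ord (aff (P j)) (w j) G) (hred : Reduced e w) {c δ : ℕ}
    (hc : c = 6 ∨ c = 7) (hkk : kk e w = -c) (hip : ip e w e w = -δ) (hδ : 2 ≤ δ) : False := by
  classical
  have hneg : ip e w e w < 0 := by omega
  have hne : ¬ (ip e w e w = -1 ∧ kk e w = 1) := by omega
  have h4 : ∀ j, w j ≠ 0 → 4 ≤ w j := by
    rcases neg_cl hP hG hGe hord hneg hne with h | ⟨h, -⟩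
    · exact h
    · omega
  have h10 : ¬ (Finset.univ.filter fun j => 3 < w j).card ≤ 9 := fun h =>
    hne (neg9 h hP hG hGe hord hneg)
  obtain ⟨j0, hj0⟩ : ∃ j, 3 < w j := by
    by_contra hcon
    push Not at hcon
    apply h10
    rw [Finset.filter_false_of_mem fun j _ => by have := hcon j; omega]
    simp
  have he : 2 ≤ e := by
    have := van_le hG.ne_zero hGe (hord j0).1
    omega
  have hSw : ∑ i, w i = 3 * e + c := by
    unfold kk at hkk
    have : ((∑ i, w i : ℕ) : ℤ) = ((3 * e + c : ℕ) : ℤ) := by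
      push_cast
      linarith
    exact_mod_cast this
  have hQw : ∑ i, w i * w i = e * e + δ := by
    unfold ip at hip
    have : ((∑ i, w i * w i : ℕ) : ℤ) = ((e * e + δ : ℕ) : ℤ) := by
      push_cast
      linarith
    exact_mod_cast this
  have hxu : ∀ j, w j ≠ 0 → δ ≤ w j := by
    intro j hj
    have := xu_neg he hP hG hGe hord hneg (j := j) (by have := h4 j hj; omega)
    omega
  have hQ2 : ∑ i, w i ^ 2 = e ^ 2 + δ := by
    rw [sq, ← hQw]
    exact Finset.sum_congr rfl fun i _ => sq _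
  have hsp : ∀ i j, w i ≠ w j → (δ : ℤ) ≤ ((w i : ℤ) - w j) ^ 2 := by
    intro i j hij
    have := spaced hP hG hGe hord hij
    rw [hQ2] at this
    push_cast at this
    linarith
  obtain ⟨σ, v, hv, hv1, hv2⟩ := exists_sorted w
  have hval : ∀ k, v k ≠ 0 → ∃ i, v k = w i := by
    intro k hk
    by_cases h : k < r + 4
    · exact ⟨_, hv1 k h⟩
    · exact absurd (hv2 k (by omega)) hk
  have hv4 : ∀ k, v k = 0 ∨ 4 ≤ v k := by
    intro k
    by_cases h : v k = 0
    · exact Or.inl h
    · obtain ⟨i, hi⟩ := hval k h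
      rw [hi]
      exact Or.inr (h4 i (by rwa [hi] at h))
  have h9 : 4 ≤ v 9 := by
    rcases hv4 9 with h | h
    · exfalso
      apply h10
      have h1 := sum_sorted hv1 (fun x => if 3 < x then 1 else 0)
      beta_reduce at h1
      rw [Finset.card_filter, ← h1, sum_cut (m := 9) (fun k hk => by rw [hv2 k hk]; rfl) (fun k hk => by
        have : v k ≤ v 9 := hv hk
        rw [if_neg (by omega)])]
      calc ∑ k ∈ Finset.range 9, (if 3 < v k then 1 else 0) ≤ ∑ _k ∈ Finset.range 9, 1 :=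
            Finset.sum_le_sum fun k _ => by split_ifs <;> omega
        _ = 9 := by simp
    · exact h
  have h0n : 0 < r + 4 := by omega
  have h1n : 1 < r + 4 := by omega
  have h2n : 2 < r + 4 := by omega
  have h3 : v 0 + v 1 + v 2 ≤ e := by
    rw [hv1 0 h0n, hv1 1 h1n, hv1 2 h2n]
    refine hred _ _ _ ?_ ?_ ?_
    · intro h
      simpa using σ.injective h
    · intro h
      simpa using σ.injective h
    · intro h
      simpa using σ.injective h
  obtain ⟨hmem, -⟩ := hE c e δ (r + 4) v hc hv h3 hv4 h9 hv2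
    (by rw [sum_sorted hv1 fun x => x]; exact hSw)
    (by rw [sum_sorted hv1 fun x => x ^ 2]; exact hQ2) hδ
    (fun k hk => by
      obtain ⟨i, hi⟩ := hval k hk
      rw [hi]
      exact hxu i (by rwa [hi] at hk))
    (fun i j hi hj hij => by
      obtain ⟨a, ha⟩ := hval i hi
      obtain ⟨b, hb⟩ := hval j hj
      rw [ha, hb]
      exact hsp a b (by rw [← ha, ← hb]; exact hij))
  obtain ⟨t, hpos, hEmp, hpre⟩ := cl_emp _ hmem
  simp only at hEmp hpre
  have hDm : ∀ j (h : j < t.length), t[j] = v j := by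
    intro j h
    have h5 := hpre.getElem h
    rw [List.getElem_map, List.getElem_range] at h5
    exact h5
  have hlt : ∀ j (h : j < t.length), j < r + 4 := by
    intro j h
    by_contra hcon
    have h5 := hDm j h
    rw [hv2 j (by omega)] at h5
    have := hpos t[j] (List.getElem_mem h)
    omega
  have hbot := hEmp (r + 4) P hP w (fun j => σ ⟨j, hlt j j.2⟩) (by
    intro i j hij
    have := σ.injective hij
    simp only [Fin.mk.injEq] at this
    exact Fin.ext this) (by
    intro j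
    show t[j] ≤ w (σ ⟨j, _⟩)
    rw [← hv1 j (hlt j j.2)]
    exact (hDm j j.2).le)
  have hGm : G ∈ VS (fun j => aff (P j)) w e := (mem_VS _ _ _ _).2 ⟨hGe, fun j => (hord j).1⟩
  rw [← sys_eq, hbot, Submodule.mem_bot] at hGm
  exact hG.ne_zero hGm

/-- Negative curves of standard class. -/
theorem std_no (hE : S_ENUM) {r e : ℕ} {w : Fin (r + 4) → ℕ} {P : Fin (r + 4) → Fin 2 → ℂ}
    (hP : AlgebraicIndependent ℚ (fun ij : Fin (r + 4) × Fin 2 => P ij.1 ij.2))
    {G : MvPolynomial (Fin 3) ℂ} (hG : Irreducible G) (hGe : G.IsHomogeneous e)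
    (hord : ∀ j, Ord (aff (P j)) (w j) G) (hred : Reduced e w) (hneg : ip e w e w < 0) :
    7 ≤ -kk e w ∧ (ip e w e w ≤ -2 → 8 ≤ -kk e w) := by
  classical
  have hkk : kk e w < 0 := by
    by_contra hcon
    push Not at hcon
    have hsum : ∑ j, w j ≤ 3 * e := by
      unfold kk at hcon
      have : ((∑ j, w j : ℕ) : ℤ) ≤ ((3 * e : ℕ) : ℤ) := by
        push_cast
        linarith
      exact_mod_cast this
    have h6 := red_ip hred (fun j => van_le hG.ne_zero hGe (hord j).1) hsum
    linarith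
  have h2χ := two_chi e w
  have h6 : 6 ≤ -kk e w := by
    by_contra hcon
    push Not at hcon
    have hχ : chi e w ≤ 0 := by omega
    have hdim := low_dim hP hred (by omega) (by omega)
    have hone := neg_one (inj_of_alg hP) hG hGe hord hneg
    rw [hone] at hdim
    push_cast at hdim
    omega
  obtain ⟨δ, hδ⟩ : ∃ δ : ℕ, ip e w e w = -δ := ⟨(ip e w e w).natAbs, by omega⟩
  obtain ⟨c, hc⟩ : ∃ c : ℕ, kk e w = -c := ⟨(kk e w).natAbs, by omega⟩
  have key : ∀ c' : ℕ, (c' = 6 ∨ c' = 7) → c = c' → 2 ≤ δ → False := fun c' hc' h h2 =>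
    std_case hE hP hG hGe hord hred hc' (by rw [hc, h]) hδ h2
  have h7 : c ≠ 6 := fun h => key 6 (Or.inl rfl) h (by omega)
  refine ⟨by omega, fun h2 => ?_⟩
  have h8 : c ≠ 7 := fun h => key 7 (Or.inr rfl) h (by omega)
  omega

end Pool.Agent.N565.NG
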