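import Mathlib

set_option autoImplicit false

/-!
# Standard negative classes with small intersection with the canonical class: statement
-/

namespace Pool.Agent.N565.NG

/-- The standard classes which are left: degree and twelve multiplicities. -/
def cl : List (ℕ × List ℕ) := [
  (48, [16, 16, 16, 16, 16, 16, 16, 16, 14, 8, 0, 0]),
  (24, [8, 8, 8, 8, 8, 8, 8, 8, 6, 4, 4, 0]),
  (37, [12, 12, 12, 12, 12, 12, 12, 12, 12, 9, 0, 0]),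
  (40, [13, 13, 13, 13, 13, 13, 13, 13, 13, 9, 0, 0]),
  (42, [14, 14, 14, 14, 14, 14, 14, 14, 10, 10, 0, 0]),
  (21, [7, 7, 7, 7, 7, 7, 7, 5, 5, 5, 5, 0]),
  (38, [14, 12, 12, 12, 12, 12, 12, 12, 12, 10, 0, 0]),
  (20, [8, 6, 6, 6, 6, 6, 6, 6, 6, 6, 4, 0]),
  (51, [17, 17, 17, 17, 17, 17, 17, 17, 14, 10, 0, 0]),
  (46, [15, 15, 15, 15, 15, 15, 15, 15, 15, 10, 0, 0]),
  (49, [16, 16, 16, 16, 16, 16, 16, 16, 16, 10, 0, 0]),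
  (25, [8, 8, 8, 8, 8, 8, 8, 8, 8, 6, 4, 0]),
  (41, [13, 13, 13, 13, 13, 13, 13, 13, 13, 13, 0, 0])]

/-- Part ENUM. -/
def S_ENUM : Prop := ∀ (c e δ n : ℕ) (v : ℕ → ℕ), c = 6 ∨ c = 7 → Antitone v →
  v 0 + v 1 + v 2 ≤ e → (∀ k, v k = 0 ∨ 4 ≤ v k) → 4 ≤ v 9 → (∀ k, n ≤ k → v k = 0) →
  ∑ k ∈ Finset.range n, v k = 3 * e + c → ∑ k ∈ Finset.range n, v k ^ 2 = e ^ 2 + δ → 2 ≤ δ →
  (∀ k, v k ≠ 0 → δ ≤ v k) →
  (∀ i j, v i ≠ 0 → v j ≠ 0 → v i ≠ v j → (δ : ℤ) ≤ ((v i : ℤ) - v j) ^ 2) →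
  (e, (List.range 12).map v) ∈ cl ∧ ∀ k, 12 ≤ k → v k = 0

end Pool.Agent.N565.NG
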