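import Pool.Agent.N565.NG.C0
import Pool.Agent.N565.NG.C48
import Pool.Agent.N565.NG.C37
import Pool.Agent.N565.NG.C40
import Pool.Agent.N565.NG.C42
import Pool.Agent.N565.NG.C38
import Pool.Agent.N565.NG.C51
import Pool.Agent.N565.NG.C46
import Pool.Agent.N565.NG.C49
import Pool.Agent.N565.NG.C41
import Pool.Agent.N565.NG.Stm

set_option autoImplicit false

/-!
# The table of the certificates
-/

namespace Pool.Agent.N565.NG

open Pool.Agent.N108.SG

theorem cl_emp : ∀ x ∈ cl, ∃ t : List ℕ, (∀ a ∈ t, 0 < a) ∧ Emp x.1 t ∧ t <+: x.2 := by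
  intro x hx
  simp only [cl, List.mem_cons, List.not_mem_nil, or_false] at hx
  rcases hx with rfl | rfl | rfl | rfl | rfl | rfl | rfl | rfl | rfl | rfl | rfl | rfl | rfl
  · exact ⟨_, by decide, e48, by decide⟩
  · exact ⟨_, by decide, e24, by decide⟩
  · exact ⟨_, by decide, e37, by decide⟩
  · exact ⟨_, by decide, e40, by decide⟩
  · exact ⟨_, by decide, e42, by decide⟩
  · exact ⟨_, by decide, e21, by decide⟩
  · exact ⟨_, by decide, e38, by decide⟩
  · exact ⟨_, by decide, e20, by decide⟩
  · exact ⟨_, by decide, e51, by decide⟩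
  · exact ⟨_, by decide, e46, by decide⟩
  · exact ⟨_, by decide, e49, by decide⟩
  · exact ⟨_, by decide, e25, by decide⟩
  · exact ⟨_, by decide, e41, by decide⟩

end Pool.Agent.N565.NG
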